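import Pool.Agent.R957.Mmpp.Defs

/-!
# Markov-modulated Poisson processes: the algebraic form of the inequality `c ^ 2 ≥ 1`
-/

set_option autoImplicit false

namespace Pool.Agent.Run7.h175.MM

open Matrix Pool.R957.Mmpp Finset

variable {p : ℕ} (M : MMPP p) {piv : Fin p → ℝ}

/-- the mean rate -/
def rate (piv : Fin p → ℝ) : ℝ := ∑ i, piv i * M.lam i

/-- the Dirichlet form of the background chain -/
def dir (piv x : Fin p → ℝ) : ℝ := ∑ i, ∑ j, piv i * M.Q i j * (x i - x j) ^ 2

variable {M}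

theorem piv_pos (h : M.IsStat piv) (i : Fin p) : 0 < piv i := by
  have h0 : ∃ j, 0 < piv j := by
    by_contra hcon
    push Not at hcon
    have h1 : ∑ j, piv j ≤ 0 := Finset.sum_nonpos fun j _ => hcon j
    rw [h.sum_one] at h1
    linarith
  obtain ⟨j, hj⟩ := h0
  have hstep : ∀ a b, 0 < M.Q a b → 0 < piv a → 0 < piv b := by
    intro a b hab ha
    rcases lt_or_eq_of_le (h.nonneg b) with h1 | h1
    · exact h1
    · exfalso
      have h2 := congrFun h.stat b
      simp only [Matrix.vecMul, dotProduct, Pi.zero_apply] at h2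
      have h3 : ∀ k ∈ Finset.univ, 0 ≤ piv k * M.Q k b := by
        intro k _
        by_cases hk : k = b
        · subst hk
          rw [← h1]
          simp
        · exact mul_nonneg (h.nonneg k) (M.gen.offdiag k b hk)
      have h4 := (Finset.sum_eq_zero_iff_of_nonneg h3).1 h2 a (Finset.mem_univ a)
      have h5 := mul_pos ha hab
      linarith
  have := M.gen.irred j i
  induction this with
  | refl => exact hj
  | tail _ h2 ih => exact hstep _ _ h2 ih

theorem dir_nonneg (h : M.IsStat piv) (x : Fin p → ℝ) : 0 ≤ dir M piv x := by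
  unfold dir
  refine Finset.sum_nonneg fun i _ => Finset.sum_nonneg fun j _ => ?_
  by_cases hij : i = j
  · subst hij
    simp
  · exact mul_nonneg (mul_nonneg (h.nonneg i) (M.gen.offdiag i j hij)) (sq_nonneg _)

theorem dir_eq (h : M.IsStat piv) (x : Fin p → ℝ) :
    ∑ i, piv i * x i * (M.Q *ᵥ x) i = - (dir M piv x / 2) := by
  have h1 : ∑ i, ∑ j, piv i * M.Q i j * x i ^ 2 = 0 := by
    refine Finset.sum_eq_zero fun i _ => ?_
    have : ∑ j, piv i * M.Q i j * x i ^ 2 = piv i * x i ^ 2 * ∑ j, M.Q i j := by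
      rw [Finset.mul_sum]
      exact Finset.sum_congr rfl fun j _ => by ring
    rw [this, M.gen.rowsum i, mul_zero]
  have h2 : ∑ i, ∑ j, piv i * M.Q i j * x j ^ 2 = 0 := by
    rw [Finset.sum_comm]
    refine Finset.sum_eq_zero fun j _ => ?_
    have h3 := congrFun h.stat j
    simp only [Matrix.vecMul, dotProduct, Pi.zero_apply] at h3
    rw [← Finset.sum_mul, h3, zero_mul]
  have h3 : dir M piv x = ∑ i, ∑ j, piv i * M.Q i j * x i ^ 2 + ∑ i, ∑ j, piv i * M.Q i j * x j ^ 2
      - 2 * ∑ i, ∑ j, piv i * x i * (M.Q i j * x j) := by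
    unfold dir
    rw [Finset.mul_sum, ← Finset.sum_add_distrib, ← Finset.sum_sub_distrib]
    refine Finset.sum_congr rfl fun i _ => ?_
    rw [Finset.mul_sum, ← Finset.sum_add_distrib, ← Finset.sum_sub_distrib]
    exact Finset.sum_congr rfl fun j _ => by ring
  rw [h3, h1, h2]
  have h4 : ∑ i, piv i * x i * (M.Q *ᵥ x) i = ∑ i, ∑ j, piv i * x i * (M.Q i j * x j) := by
    refine Finset.sum_congr rfl fun i _ => ?_
    rw [Matrix.mulVec, dotProduct, Finset.mul_sum]
  rw [h4]
  ring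

/-- the energy of a vector -/
theorem energy (h : M.IsStat piv) (x : Fin p → ℝ) :
    ∑ i, piv i * x i * (M.C *ᵥ x) i = - (∑ i, piv i * M.lam i * x i ^ 2 + dir M piv x / 2) := by
  have h1 : ∀ i, (M.C *ᵥ x) i = (M.Q *ᵥ x) i - M.lam i * x i := by
    intro i
    rw [MMPP.C, Matrix.sub_mulVec, Pi.sub_apply, MMPP.D, Matrix.mulVec_diagonal]
  have h2 : ∑ i, piv i * x i * (M.C *ᵥ x) i =
      ∑ i, piv i * x i * (M.Q *ᵥ x) i - ∑ i, piv i * M.lam i * x i ^ 2 := by
    rw [← Finset.sum_sub_distrib]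
    refine Finset.sum_congr rfl fun i _ => ?_
    rw [h1]
    ring
  rw [h2, dir_eq h]
  ring

theorem eq_of_dir (h : M.IsStat piv) {x : Fin p → ℝ} (hx : dir M piv x = 0) (i j : Fin p) : x i = x j := by
  have hstep : ∀ a b, 0 < M.Q a b → x a = x b := by
    intro a b hab
    unfold dir at hx
    have h1 : ∀ i ∈ Finset.univ, 0 ≤ ∑ j, piv i * M.Q i j * (x i - x j) ^ 2 := by
      intro i _
      refine Finset.sum_nonneg fun j _ => ?_
      by_cases hij : i = j
      · subst hij
        simp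
      · exact mul_nonneg (mul_nonneg (h.nonneg i) (M.gen.offdiag i j hij)) (sq_nonneg _)
    have h2 := (Finset.sum_eq_zero_iff_of_nonneg h1).1 hx a (Finset.mem_univ a)
    have h3 : ∀ j ∈ Finset.univ, 0 ≤ piv a * M.Q a j * (x a - x j) ^ 2 := by
      intro j _
      by_cases hij : a = j
      · subst hij
        simp
      · exact mul_nonneg (mul_nonneg (h.nonneg a) (M.gen.offdiag a j hij)) (sq_nonneg _)
    have h4 := (Finset.sum_eq_zero_iff_of_nonneg h3).1 h2 b (Finset.mem_univ b)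
    have h5 : 0 < piv a * M.Q a b := mul_pos (piv_pos h a) hab
    have h6 : (x a - x b) ^ 2 = 0 := by
      rcases mul_eq_zero.1 h4 with h7 | h7
      · exact absurd h7 h5.ne'
      · exact h7
    have h7 := pow_eq_zero_iff (two_ne_zero) |>.1 h6
    linarith
  have := M.gen.irred i j
  induction this with
  | refl => rfl
  | tail _ h2 ih => rw [ih, hstep _ _ h2]

theorem lam_pos_exists (M : MMPP p) : ∃ i, 0 < M.lam i := by
  obtain ⟨i, hi⟩ := M.lam_ne
  exact ⟨i, lt_of_le_of_ne (M.lam_nonneg i) (Ne.symm hi)⟩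

/-- the energy is positive definite -/
theorem energy_pos (h : M.IsStat piv) {x : Fin p → ℝ} (hx : x ≠ 0) :
    0 < ∑ i, piv i * M.lam i * x i ^ 2 + dir M piv x / 2 := by
  have h1 : 0 ≤ ∑ i, piv i * M.lam i * x i ^ 2 :=
    Finset.sum_nonneg fun i _ => mul_nonneg (mul_nonneg (h.nonneg i) (M.lam_nonneg i)) (sq_nonneg _)
  have h2 := dir_nonneg h x
  rcases lt_or_eq_of_le h2 with h3 | h3
  · linarith
  · obtain ⟨k, hk⟩ := lam_pos_exists M
    have h4 : 0 < ∑ i, piv i * M.lam i * x i ^ 2 := by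
      refine Finset.sum_pos' (fun i _ => mul_nonneg (mul_nonneg (h.nonneg i) (M.lam_nonneg i)) (sq_nonneg _))
        ⟨k, Finset.mem_univ k, ?_⟩
      have hxk : x k ≠ 0 := by
        intro h0
        apply hx
        funext i
        rw [eq_of_dir h h3.symm i k, h0]
        rfl
      have : 0 < x k ^ 2 := by positivity
      exact mul_pos (mul_pos (piv_pos h k) hk) this
    linarith

theorem det_C (h : M.IsStat piv) : M.C.det ≠ 0 := by
  intro h0
  obtain ⟨v, hv, hCv⟩ := Matrix.exists_mulVec_eq_zero_iff.2 h0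
  have h1 := energy h v
  rw [hCv] at h1
  have h2 := energy_pos h hv
  simp at h1
  linarith

theorem isUnit_C (h : M.IsStat piv) : IsUnit M.C.det := (det_C h).isUnit

theorem rate_pos (h : M.IsStat piv) : 0 < rate M piv := by
  obtain ⟨k, hk⟩ := lam_pos_exists M
  refine Finset.sum_pos' (fun i _ => mul_nonneg (h.nonneg i) (M.lam_nonneg i))
    ⟨k, Finset.mem_univ k, mul_pos (piv_pos h k) hk⟩

theorem piv_C_one (h : M.IsStat piv) : piv ᵥ* M.C = - fun i => piv i * M.lam i := by
  rw [MMPP.C, Matrix.vecMul_sub, h.stat, MMPP.D, zero_sub]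
  congr 1
  funext i
  rw [Matrix.vecMul_diagonal]

/-- the mean time to the first event from each state -/
noncomputable def ff (M : MMPP p) : Fin p → ℝ := - (M.C⁻¹ *ᵥ 1)

theorem C_ff (h : M.IsStat piv) : M.C *ᵥ ff M = -1 := by
  unfold ff
  rw [Matrix.mulVec_neg, Matrix.mulVec_mulVec, Matrix.mul_nonsing_inv _ (isUnit_C h), Matrix.one_mulVec]

theorem lam_ff (h : M.IsStat piv) : ∑ i, piv i * M.lam i * ff M i = 1 := by
  have h1 : piv ⬝ᵥ (M.C *ᵥ ff M) = (piv ᵥ* M.C) ⬝ᵥ ff M := Matrix.dotProduct_mulVec _ _ _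
  rw [C_ff h, piv_C_one h] at h1
  simp only [dotProduct, Pi.neg_apply, Pi.one_apply, neg_mul, Finset.sum_neg_distrib, mul_neg, mul_one,
    h.sum_one] at h1
  linarith

theorem piv_ff (h : M.IsStat piv) :
    ∑ i, piv i * ff M i = ∑ i, piv i * M.lam i * ff M i ^ 2 + dir M piv (ff M) / 2 := by
  have h1 := energy h (ff M)
  rw [C_ff h] at h1
  simp only [Pi.neg_apply, Pi.one_apply, mul_neg, mul_one, Finset.sum_neg_distrib] at h1
  linarith

theorem main (h : M.IsStat piv) : 1 ≤ rate M piv * ∑ i, piv i * ff M i := by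
  have h1 := lam_ff h
  have h2 := piv_ff h
  have h3 : (∑ i, piv i * M.lam i * ff M i) ^ 2 ≤
      (∑ i, piv i * M.lam i) * ∑ i, piv i * M.lam i * ff M i ^ 2 := by
    apply Finset.sum_sq_le_sum_mul_sum_of_sq_le_mul
    · exact fun i _ => mul_nonneg (h.nonneg i) (M.lam_nonneg i)
    · exact fun i _ => mul_nonneg (mul_nonneg (h.nonneg i) (M.lam_nonneg i)) (sq_nonneg _)
    · intro i _
      exact le_of_eq (by ring)
  rw [h1] at h3
  have h4 := dir_nonneg h (ff M)
  have h5 := rate_pos h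
  have h6 : (∑ i, piv i * M.lam i) = rate M piv := rfl
  rw [h6] at h3
  rw [h2]
  nlinarith

theorem main_eq (h : M.IsStat piv) (he : rate M piv * ∑ i, piv i * ff M i = 1) (i j : Fin p) :
    M.lam i = M.lam j := by
  have h1 := lam_ff h
  have h2 := piv_ff h
  have h3 : (∑ i, piv i * M.lam i * ff M i) ^ 2 ≤
      (∑ i, piv i * M.lam i) * ∑ i, piv i * M.lam i * ff M i ^ 2 := by
    apply Finset.sum_sq_le_sum_mul_sum_of_sq_le_mul
    · exact fun i _ => mul_nonneg (h.nonneg i) (M.lam_nonneg i)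
    · exact fun i _ => mul_nonneg (mul_nonneg (h.nonneg i) (M.lam_nonneg i)) (sq_nonneg _)
    · intro i _
      exact le_of_eq (by ring)
  rw [h1] at h3
  have h4 := dir_nonneg h (ff M)
  have h5 := rate_pos h
  have h6 : (∑ i, piv i * M.lam i) = rate M piv := rfl
  rw [h6] at h3
  rw [h2] at he
  have h7 : dir M piv (ff M) = 0 := by
    by_contra hne
    have h8 : 0 < dir M piv (ff M) := lt_of_le_of_ne h4 (Ne.symm hne)
    nlinarith [mul_pos h5 h8]
  have h9 : ∀ k, M.lam k * ff M k = 1 := by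
    intro k
    have e1 := congrFun (C_ff h) k
    have e2 : (M.C *ᵥ ff M) k = (M.Q *ᵥ ff M) k - M.lam k * ff M k := by
      rw [MMPP.C, Matrix.sub_mulVec, Pi.sub_apply, MMPP.D, Matrix.mulVec_diagonal]
    have e3 : (M.Q *ᵥ ff M) k = 0 := by
      rw [Matrix.mulVec, dotProduct]
      have : ∑ j, M.Q k j * ff M j = (∑ j, M.Q k j) * ff M k := by
        rw [Finset.sum_mul]
        exact Finset.sum_congr rfl fun j _ => by rw [eq_of_dir h h7 j k]
      rw [this, M.gen.rowsum k, zero_mul]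
    rw [e2, e3] at e1
    simp only [Pi.neg_apply, Pi.one_apply] at e1
    linarith
  have e1 := h9 i
  have e2 := h9 j
  rw [eq_of_dir h h7 i j] at e1
  have e3 : ff M j ≠ 0 := by
    intro h0
    rw [h0] at e2
    simp at e2
  exact mul_right_cancel₀ e3 (e1.trans e2.symm)

theorem const_eq (h : M.IsStat piv) (hl : ∀ i j, M.lam i = M.lam j) :
    rate M piv * ∑ i, piv i * ff M i = 1 := by
  obtain ⟨k, hk⟩ := lam_pos_exists M
  have h1 := lam_ff h
  have h2 : ∑ i, piv i * M.lam i * ff M i = M.lam k * ∑ i, piv i * ff M i := by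
    rw [Finset.mul_sum]
    exact Finset.sum_congr rfl fun i _ => by rw [hl i k]; ring
  have h3 : rate M piv = M.lam k := by
    unfold rate
    have : ∑ i, piv i * M.lam i = (∑ i, piv i) * M.lam k := by
      rw [Finset.sum_mul]
      exact Finset.sum_congr rfl fun i _ => by rw [hl i k]
    rw [this, h.sum_one, one_mul]
  rw [h3, ← h2, h1]

/-- in the notation of the problem -/
theorem prod_eq (h : M.IsStat piv) :
    (piv ⬝ᵥ (M.C *ᵥ 1)) * (piv ⬝ᵥ (M.C⁻¹ *ᵥ 1)) = rate M piv * ∑ i, piv i * ff M i := by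
  have h1 : piv ⬝ᵥ (M.C *ᵥ 1) = - rate M piv := by
    rw [Matrix.dotProduct_mulVec, piv_C_one h]
    simp only [dotProduct, Pi.neg_apply, Pi.one_apply, mul_one, Finset.sum_neg_distrib]
    rfl
  have h2 : piv ⬝ᵥ (M.C⁻¹ *ᵥ 1) = - ∑ i, piv i * ff M i := by
    unfold ff
    simp only [dotProduct, Pi.neg_apply, mul_neg, Finset.sum_neg_distrib, neg_neg]
  rw [h1, h2]
  ring

end Pool.Agent.Run7.h175.MM
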