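import Pool.Agent.Run7.h175.MM.Alg

/-!
# Markov-modulated Poisson processes: the moments of the first event time
-/

set_option autoImplicit false

namespace Pool.Agent.Run7.h175.MM

open Matrix Pool.R957.Mmpp Finset MeasureTheory Filter Topology

noncomputable section

variable {p : ℕ} {M : MMPP p} {piv : Fin p → ℝ}

section deriv

attribute [local instance] Matrix.linftyOpNormedAddCommGroup Matrix.linftyOpNormedSpace
  Matrix.linftyOpNormedRing Matrix.linftyOpNormedAlgebra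

theorem X_deriv (C : Matrix (Fin p) (Fin p) ℝ) (v : Fin p → ℝ) (t : ℝ) :
    HasDerivAt (fun s : ℝ => NormedSpace.exp (s • C) *ᵥ v) (NormedSpace.exp (t • C) *ᵥ (C *ᵥ v)) t := by
  have h1 : HasDerivAt (fun s : ℝ => NormedSpace.exp (s • C)) (NormedSpace.exp (t • C) * C) t :=
    hasDerivAt_exp_smul_const C t
  let L : Matrix (Fin p) (Fin p) ℝ →ₗ[ℝ] (Fin p → ℝ) :=
    { toFun := fun A => A *ᵥ v
      map_add' := fun A B => Matrix.add_mulVec A B v
      map_smul' := fun c A => Matrix.smul_mulVec c A v }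
  have h2 := (LinearMap.toContinuousLinearMap L).hasFDerivAt.comp_hasDerivAt t h1
  have h3 : (LinearMap.toContinuousLinearMap L) (NormedSpace.exp (t • C) * C) =
      NormedSpace.exp (t • C) *ᵥ (C *ᵥ v) := by
    show (NormedSpace.exp (t • C) * C) *ᵥ v = _
    rw [Matrix.mulVec_mulVec]
  rw [← h3]
  exact h2

theorem X_deriv' (C : Matrix (Fin p) (Fin p) ℝ) (v : Fin p → ℝ) (t : ℝ) :
    HasDerivAt (fun s : ℝ => NormedSpace.exp (s • C) *ᵥ v) (C *ᵥ (NormedSpace.exp (t • C) *ᵥ v)) t := by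
  have h1 : HasDerivAt (fun s : ℝ => NormedSpace.exp (s • C)) (C * NormedSpace.exp (t • C)) t :=
    hasDerivAt_exp_smul_const' C t
  let L : Matrix (Fin p) (Fin p) ℝ →ₗ[ℝ] (Fin p → ℝ) :=
    { toFun := fun A => A *ᵥ v
      map_add' := fun A B => Matrix.add_mulVec A B v
      map_smul' := fun c A => Matrix.smul_mulVec c A v }
  have h2 := (LinearMap.toContinuousLinearMap L).hasFDerivAt.comp_hasDerivAt t h1
  have h3 : (LinearMap.toContinuousLinearMap L) (C * NormedSpace.exp (t • C)) =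
      C *ᵥ (NormedSpace.exp (t • C) *ᵥ v) := by
    show (C * NormedSpace.exp (t • C)) *ᵥ v = _
    rw [Matrix.mulVec_mulVec]
  rw [← h3]
  exact h2

end deriv

theorem X_zero (C : Matrix (Fin p) (Fin p) ℝ) (v : Fin p → ℝ) :
    NormedSpace.exp ((0 : ℝ) • C) *ᵥ v = v := by
  rw [zero_smul, NormedSpace.exp_zero, Matrix.one_mulVec]

/-- the energy form -/
def B (M : MMPP p) (piv x : Fin p → ℝ) : ℝ := ∑ i, piv i * M.lam i * x i ^ 2 + dir M piv x / 2

theorem B_smul (c : ℝ) (x : Fin p → ℝ) : B M piv (c • x) = c ^ 2 * B M piv x := by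
  unfold B dir
  simp only [Pi.smul_apply, smul_eq_mul]
  have e1 : ∑ i, piv i * M.lam i * (c * x i) ^ 2 = c ^ 2 * ∑ i, piv i * M.lam i * x i ^ 2 := by
    rw [Finset.mul_sum]
    exact Finset.sum_congr rfl fun i _ => by ring
  have e2 : ∑ i, ∑ j, piv i * M.Q i j * (c * x i - c * x j) ^ 2 =
      c ^ 2 * ∑ i, ∑ j, piv i * M.Q i j * (x i - x j) ^ 2 := by
    rw [Finset.mul_sum]
    refine Finset.sum_congr rfl fun i _ => ?_
    rw [Finset.mul_sum]
    exact Finset.sum_congr rfl fun j _ => by ring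
  rw [e1, e2]
  ring

theorem B_cont : Continuous (B M piv) := by
  unfold B dir
  fun_prop

theorem gap (h : M.IsStat piv) : ∃ m : ℝ, 0 < m ∧ ∀ x : Fin p → ℝ,
    m * ∑ i, piv i * x i ^ 2 ≤ B M piv x := by
  by_cases hne : (Metric.sphere (0 : Fin p → ℝ) 1).Nonempty
  · obtain ⟨y, hy, hmin⟩ := (isCompact_sphere (0 : Fin p → ℝ) 1).exists_isMinOn hne
      (B_cont (M := M) (piv := piv)).continuousOn
    have hy0 : y ≠ 0 := by
      rintro rfl
      simp at hy
    refine ⟨B M piv y, energy_pos h hy0, fun x => ?_⟩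
    have hBy : 0 < B M piv y := energy_pos h hy0
    by_cases hx : x = 0
    · subst hx
      simp [B, dir]
    · have hn : 0 < ‖x‖ := norm_pos_iff.2 hx
      have h1 : B M piv y ≤ B M piv (‖x‖⁻¹ • x) := by
        apply hmin
        rw [mem_sphere_zero_iff_norm, norm_smul, norm_inv, norm_norm, inv_mul_cancel₀ hn.ne']
      rw [B_smul] at h1
      have h2 : B M piv y * ‖x‖ ^ 2 ≤ B M piv x := by
        have h3 : B M piv y * ‖x‖ ^ 2 ≤ (‖x‖⁻¹ ^ 2 * B M piv x) * ‖x‖ ^ 2 :=
          mul_le_mul_of_nonneg_right h1 (by positivity)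
        have h4 : (‖x‖⁻¹ ^ 2 * B M piv x) * ‖x‖ ^ 2 = B M piv x := by
          field_simp
        rwa [h4] at h3
      have h5 : ∑ i, piv i * x i ^ 2 ≤ ‖x‖ ^ 2 := by
        calc ∑ i, piv i * x i ^ 2 ≤ ∑ i, piv i * ‖x‖ ^ 2 := by
              refine Finset.sum_le_sum fun i _ => mul_le_mul_of_nonneg_left ?_ (h.nonneg i)
              have h6 := norm_le_pi_norm x i
              rw [Real.norm_eq_abs] at h6
              rw [← sq_abs]
              exact pow_le_pow_left₀ (abs_nonneg _) h6 2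
          _ = ‖x‖ ^ 2 := by rw [← Finset.sum_mul, h.sum_one, one_mul]
      exact (mul_le_mul_of_nonneg_left h5 hBy.le).trans h2
  · refine ⟨1, one_pos, fun x => ?_⟩
    by_cases hx : x = 0
    · subst hx
      simp [B, dir]
    · exfalso
      apply hne
      have hn : 0 < ‖x‖ := norm_pos_iff.2 hx
      refine ⟨‖x‖⁻¹ • x, ?_⟩
      rw [mem_sphere_zero_iff_norm, norm_smul, norm_inv, norm_norm, inv_mul_cancel₀ hn.ne']

/-- exponential decay -/
theorem decay (h : M.IsStat piv) (v : Fin p → ℝ) : ∃ K m : ℝ, 0 < m ∧ 0 ≤ K ∧ ∀ t : ℝ, 0 ≤ t → ∀ i,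
    |(NormedSpace.exp (t • M.C) *ᵥ v) i| ≤ K * Real.exp (-m * t) := by
  obtain ⟨m, hm, hgap⟩ := gap h
  set X : ℝ → Fin p → ℝ := fun t => NormedSpace.exp (t • M.C) *ᵥ v with hX
  have hXd : ∀ t i, HasDerivAt (fun s => X s i) ((M.C *ᵥ X t) i) t := by
    intro t i
    exact (hasDerivAt_pi.1 (X_deriv' M.C v t)) i
  set V : ℝ → ℝ := fun t => ∑ i, piv i * X t i ^ 2 with hV
  have hVd : ∀ t, HasDerivAt V (-2 * B M piv (X t)) t := by
    intro t
    have h1 : HasDerivAt V (∑ i, piv i * (2 * X t i * (M.C *ᵥ X t) i)) t := by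
      have h2 : ∀ i ∈ Finset.univ, HasDerivAt (fun s => piv i * X s i ^ 2)
          (piv i * (2 * X t i * (M.C *ᵥ X t) i)) t := by
        intro i _
        have h3 := ((hXd t i).pow 2).const_mul (piv i)
        refine h3.congr_deriv ?_
        simp
      exact HasDerivAt.fun_sum h2
    refine h1.congr_deriv ?_
    have h4 := energy h (X t)
    have h5 : ∑ i, piv i * (2 * X t i * (M.C *ᵥ X t) i) = 2 * ∑ i, piv i * X t i * (M.C *ᵥ X t) i := by
      rw [Finset.mul_sum]
      exact Finset.sum_congr rfl fun i _ => by ring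
    rw [h5, h4]
    unfold B
    ring
  have hW : Antitone fun t => Real.exp (2 * m * t) * V t := by
    have hWd : ∀ t, HasDerivAt (fun t => Real.exp (2 * m * t) * V t)
        (Real.exp (2 * m * t) * (2 * m) * V t + Real.exp (2 * m * t) * (-2 * B M piv (X t))) t := by
      intro t
      have h1 : HasDerivAt (fun t : ℝ => Real.exp (2 * m * t)) (Real.exp (2 * m * t) * (2 * m)) t := by
        have h2 : HasDerivAt (fun t : ℝ => 2 * m * t) (2 * m) t := by
          simpa using (hasDerivAt_id t).const_mul (2 * m)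
        exact h2.exp
      exact h1.mul (hVd t)
    apply antitone_of_deriv_nonpos
    · exact fun t => (hWd t).differentiableAt
    · intro t
      rw [(hWd t).deriv]
      have h1 := hgap (X t)
      have h2 : Real.exp (2 * m * t) * (2 * m) * V t + Real.exp (2 * m * t) * (-2 * B M piv (X t)) =
          2 * Real.exp (2 * m * t) * (m * V t - B M piv (X t)) := by ring
      rw [h2]
      exact mul_nonpos_of_nonneg_of_nonpos (by positivity) (by simp only [hV]; linarith)
  have hVb : ∀ t, 0 ≤ t → V t ≤ Real.exp (-(2 * m * t)) * V 0 := by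
    intro t ht
    have h1 := hW ht
    simp only [mul_zero, Real.exp_zero, one_mul] at h1
    have h2 : V t = Real.exp (-(2 * m * t)) * (Real.exp (2 * m * t) * V t) := by
      rw [← mul_assoc, ← Real.exp_add]
      simp
    rw [h2]
    exact mul_le_mul_of_nonneg_left h1 (Real.exp_pos _).le
  have hV0 : 0 ≤ V 0 := Finset.sum_nonneg fun i _ => mul_nonneg (h.nonneg i) (sq_nonneg _)
  refine ⟨∑ i, Real.sqrt (V 0 / piv i), m, hm, Finset.sum_nonneg fun i _ => Real.sqrt_nonneg _, fun t ht i => ?_⟩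
  have h1 : piv i * X t i ^ 2 ≤ V t :=
    Finset.single_le_sum (f := fun i => piv i * X t i ^ 2)
      (fun i _ => mul_nonneg (h.nonneg i) (sq_nonneg _)) (Finset.mem_univ i)
  have h2 := piv_pos h i
  have h3 : X t i ^ 2 ≤ V 0 / piv i * Real.exp (-m * t) ^ 2 := by
    have h4 : Real.exp (-m * t) ^ 2 = Real.exp (-(2 * m * t)) := by
      rw [← Real.exp_nat_mul]
      congr 1
      push_cast
      ring
    rw [h4, div_mul_eq_mul_div, le_div_iff₀ h2]
    have := hVb t ht
    nlinarith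
  have h5 : |X t i| ≤ Real.sqrt (V 0 / piv i) * Real.exp (-m * t) := by
    apply abs_le_of_sq_le_sq
    · rw [mul_pow, Real.sq_sqrt (div_nonneg hV0 h2.le)]
      exact h3
    · positivity
  refine h5.trans (mul_le_mul_of_nonneg_right ?_ (Real.exp_pos _).le)
  exact Finset.single_le_sum (f := fun i => Real.sqrt (V 0 / piv i)) (fun i _ => Real.sqrt_nonneg _)
    (Finset.mem_univ i)

/-- the function `a e^(Ct) v` -/
def S (M : MMPP p) (a v : Fin p → ℝ) (t : ℝ) : ℝ := a ⬝ᵥ (NormedSpace.exp (t • M.C) *ᵥ v)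

theorem S_deriv (a v : Fin p → ℝ) (t : ℝ) : HasDerivAt (S M a v) (S M a (M.C *ᵥ v) t) t := by
  unfold S dotProduct
  apply HasDerivAt.fun_sum
  intro i _
  exact ((hasDerivAt_pi.1 (X_deriv M.C v t)) i).const_mul (a i)

theorem S_zero (a v : Fin p → ℝ) : S M a v 0 = a ⬝ᵥ v := by
  unfold S
  rw [X_zero]

theorem S_cont (a v : Fin p → ℝ) : Continuous (S M a v) :=
  continuous_iff_continuousAt.2 fun t => (S_deriv a v t).continuousAt

theorem S_decay (h : M.IsStat piv) (a v : Fin p → ℝ) : ∃ K m : ℝ, 0 < m ∧ 0 ≤ K ∧ ∀ t : ℝ, 0 ≤ t →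
    |S M a v t| ≤ K * Real.exp (-m * t) := by
  obtain ⟨K, m, hm, hK, hd⟩ := decay h v
  refine ⟨(∑ i, |a i|) * K, m, hm, by positivity, fun t ht => ?_⟩
  unfold S dotProduct
  calc |∑ i, a i * (NormedSpace.exp (t • M.C) *ᵥ v) i| ≤
        ∑ i, |a i * (NormedSpace.exp (t • M.C) *ᵥ v) i| := Finset.abs_sum_le_sum_abs _ _
    _ ≤ ∑ i, |a i| * (K * Real.exp (-m * t)) := by
        refine Finset.sum_le_sum fun i _ => ?_
        rw [abs_mul]
        exact mul_le_mul_of_nonneg_left (hd t ht i) (abs_nonneg _)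
    _ = (∑ i, |a i|) * K * Real.exp (-m * t) := by rw [← Finset.sum_mul, mul_assoc]

theorem S_int (h : M.IsStat piv) (a v : Fin p → ℝ) : IntegrableOn (S M a v) (Set.Ioi 0) := by
  obtain ⟨K, m, hm, hK, hd⟩ := S_decay h a v
  apply integrable_of_isBigO_exp_neg hm (S_cont a v).continuousOn
  apply Asymptotics.IsBigO.of_bound K
  filter_upwards [eventually_ge_atTop 0] with t ht
  rw [Real.norm_eq_abs, Real.norm_eq_abs, abs_of_pos (Real.exp_pos _)]
  exact hd t ht

theorem t_exp_le (m t : ℝ) (hm : 0 < m) (_ : 0 ≤ t) : t * Real.exp (-m * t) ≤ 2 / m * Real.exp (-(m / 2) * t) := by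
  have h1 : m / 2 * t ≤ Real.exp (m / 2 * t) := by
    have := Real.add_one_le_exp (m / 2 * t)
    linarith
  have h2 : Real.exp (-m * t) = Real.exp (-(m / 2) * t) * (Real.exp (m / 2 * t))⁻¹ := by
    rw [← Real.exp_neg, ← Real.exp_add]
    congr 1
    ring
  have h3 : t * (Real.exp (m / 2 * t))⁻¹ ≤ 2 / m := by
    rw [← div_eq_mul_inv, div_le_div_iff₀ (Real.exp_pos _) hm]
    nlinarith
  rw [h2]
  calc t * (Real.exp (-(m / 2) * t) * (Real.exp (m / 2 * t))⁻¹) =
        (t * (Real.exp (m / 2 * t))⁻¹) * Real.exp (-(m / 2) * t) := by ring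
    _ ≤ 2 / m * Real.exp (-(m / 2) * t) := mul_le_mul_of_nonneg_right h3 (Real.exp_pos _).le

theorem tS_decay (h : M.IsStat piv) (a v : Fin p → ℝ) : ∃ K m : ℝ, 0 < m ∧ 0 ≤ K ∧ ∀ t : ℝ, 0 ≤ t →
    |t * S M a v t| ≤ K * Real.exp (-m * t) := by
  obtain ⟨K, m, hm, hK, hd⟩ := S_decay h a v
  refine ⟨K * (2 / m), m / 2, by linarith, by positivity, fun t ht => ?_⟩
  rw [abs_mul, abs_of_nonneg ht]
  calc t * |S M a v t| ≤ t * (K * Real.exp (-m * t)) := mul_le_mul_of_nonneg_left (hd t ht) ht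
    _ = K * (t * Real.exp (-m * t)) := by ring
    _ ≤ K * (2 / m * Real.exp (-(m / 2) * t)) := mul_le_mul_of_nonneg_left (t_exp_le m t hm ht) hK
    _ = K * (2 / m) * Real.exp (-(m / 2) * t) := by ring

theorem tS_int (h : M.IsStat piv) (a v : Fin p → ℝ) : IntegrableOn (fun t => t * S M a v t) (Set.Ioi 0) := by
  obtain ⟨K, m, hm, hK, hd⟩ := tS_decay h a v
  apply integrable_of_isBigO_exp_neg hm (continuous_id.mul (S_cont a v)).continuousOn
  apply Asymptotics.IsBigO.of_bound K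
  filter_upwards [eventually_ge_atTop 0] with t ht
  rw [Real.norm_eq_abs, Real.norm_eq_abs, abs_of_pos (Real.exp_pos _)]
  exact hd t ht

theorem tendsto_of_decay {F : ℝ → ℝ} (hF : ∃ K m : ℝ, 0 < m ∧ 0 ≤ K ∧ ∀ t : ℝ, 0 ≤ t →
    |F t| ≤ K * Real.exp (-m * t)) : Tendsto F atTop (𝓝 0) := by
  obtain ⟨K, m, hm, hK, hd⟩ := hF
  have h1 : Tendsto (fun t : ℝ => K * Real.exp (-m * t)) atTop (𝓝 0) := by
    have h2 : Tendsto (fun t : ℝ => Real.exp (-m * t)) atTop (𝓝 0) := by
      have h3 : Tendsto (fun t : ℝ => m * t) atTop atTop := tendsto_id.const_mul_atTop hm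
      have h4 := Real.tendsto_exp_neg_atTop_nhds_zero.comp h3
      refine h4.congr fun t => ?_
      simp [neg_mul]
    simpa using h2.const_mul K
  refine squeeze_zero_norm' ?_ h1
  filter_upwards [eventually_ge_atTop 0] with t ht
  rw [Real.norm_eq_abs]
  exact hd t ht

theorem S_integral (h : M.IsStat piv) (a v : Fin p → ℝ) :
    ∫ t in Set.Ioi 0, S M a (M.C *ᵥ v) t = - (a ⬝ᵥ v) := by
  have h1 := integral_Ioi_of_hasDerivAt_of_tendsto (a := 0) (f := S M a v)
    (f' := S M a (M.C *ᵥ v)) (m := 0) (S_cont a v).continuousWithinAt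
    (fun t _ => S_deriv a v t) (S_int h a _) (tendsto_of_decay (S_decay h a v))
  rw [h1, S_zero, zero_sub]

theorem tS_integral (h : M.IsStat piv) (a v : Fin p → ℝ) :
    ∫ t in Set.Ioi 0, t * S M a (M.C *ᵥ (M.C *ᵥ v)) t = a ⬝ᵥ v := by
  have hd : ∀ t, HasDerivAt (fun t => t * S M a (M.C *ᵥ v) t - S M a v t)
      (t * S M a (M.C *ᵥ (M.C *ᵥ v)) t) t := by
    intro t
    have h1 := ((hasDerivAt_id t).mul (S_deriv (M := M) a (M.C *ᵥ v) t)).sub (S_deriv (M := M) a v t)
    refine h1.congr_deriv ?_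
    simp only [id_eq]
    ring
  have hlim : Tendsto (fun t => t * S M a (M.C *ᵥ v) t - S M a v t) atTop (𝓝 0) := by
    have := (tendsto_of_decay (tS_decay h a (M.C *ᵥ v))).sub (tendsto_of_decay (S_decay h a v))
    simpa using this
  have h1 := integral_Ioi_of_hasDerivAt_of_tendsto (a := 0)
    (f := fun t => t * S M a (M.C *ᵥ v) t - S M a v t)
    (f' := fun t => t * S M a (M.C *ᵥ (M.C *ᵥ v)) t) (m := 0)
    (hd 0).continuousAt.continuousWithinAt (fun t _ => hd t) (tS_int h a _) hlim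
  rw [h1, zero_mul, S_zero]
  ring

end

end Pool.Agent.Run7.h175.MM
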